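import Pool.Agent.Lib.MP_acafa7_al.MS.Iface3

/-! Module G2B: abelian torsion subgroups are finite when finite subgroups are bounded. -/

namespace MSG.H74

open Classical

theorem g2b : G2BStatement := by
  intro S _ N hN B hab htor
  by_contra hinf
  obtain ⟨t, htB, htc⟩ := Set.Infinite.exists_subset_card_eq (s := (B : Set S)) hinf (N + 1)
  have hcl : Subgroup.closure (t : Set S) ≤ B := (Subgroup.closure_le B).2 htB
  have hfin : ((Subgroup.closure (t : Set S) : Subgroup S) : Set S).Finite := by
    let _inst : CommGroup (Subgroup.closure (t : Set S)) :=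
      Subgroup.closureCommGroupOfComm (fun x hx y hy => hab x (htB hx) y (htB hy))
    have : Group.FG (Subgroup.closure (t : Set S)) := Group.closure_finset_fg t
    have htors : Monoid.IsTorsion (Subgroup.closure (t : Set S)) := by
      intro x
      obtain ⟨n, hn, hx⟩ := htor x.1 (hcl x.2)
      rw [isOfFinOrder_iff_pow_eq_one]
      exact ⟨n, hn, Subtype.ext (by simpa using hx)⟩
    have : Finite (Subgroup.closure (t : Set S)) := CommGroup.finite_of_fg_torsion _ htors
    exact Set.toFinite _
  have h1 := hN _ hfin
  have h2 : N + 1 ≤ Nat.card (Subgroup.closure (t : Set S)) := by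
    have hsub : (t : Set S) ⊆ (Subgroup.closure (t : Set S) : Set S) := Subgroup.subset_closure
    have := Set.ncard_le_ncard hsub hfin
    rw [Set.ncard_coe_finset, htc] at this
    have h3 : ((Subgroup.closure (t : Set S) : Subgroup S) : Set S).ncard =
        Nat.card (Subgroup.closure (t : Set S)) := rfl
    rw [h3] at this
    exact this
  omega

end MSG.H74
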