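import Pool.Agent.Lib.MP_acafa7_al.MS.Iface2

/-! Module LoopM (MP_acafa7_al, helper74): 9.5 (4d), the marked vertex is a loop of length one. -/

namespace MSG.H74

open Classical
open MSG

section basic

variable {V : Type} {X : Cx V} {a : Equiv.Perm V} {C : ℝ}

theorem face_single {D : Type} {M : DMap D} {P : List D} (hP : M.IsFace P) {o : D} (ho : o ∈ P)
    (hφ : M.φ o = o) : P = [o] := by
  obtain ⟨hne, hnd, hrot⟩ := hP
  obtain ⟨i, hi, hio⟩ := List.getElem_of_mem ho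
  have h1 : (P.map M.φ)[i]'(by simpa using hi) = (P.rotate 1)[i]'(by simpa using hi) := by
    simp only [hrot]
  rw [List.getElem_map, List.getElem_rotate, hio, hφ] at h1
  have h2 : P[(i + 1) % P.length]'(Nat.mod_lt _ (by omega)) = P[i] := by rw [← h1, hio]
  have h3 := (hnd.getElem_inj_iff).1 h2
  have hlen : P.length = 1 := by
    by_contra hl
    have hl1 : 1 ≤ P.length := by omega
    rcases Nat.lt_or_ge (i + 1) P.length with h | h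
    · rw [Nat.mod_eq_of_lt h] at h3; omega
    · have : i + 1 = P.length := by omega
      rw [this, Nat.mod_self] at h3
      omega
  obtain ⟨x, rfl⟩ := List.length_eq_one_iff.1 hlen
  simp at ho
  rw [ho]

theorem face_mem {D : Type} {M : DMap D} {P : List D} (hP : M.IsFace P) {d : D} :
    M.φ d ∈ P ↔ d ∈ P := by
  obtain ⟨hne, hnd, hrot⟩ := hP
  have h1 : M.φ d ∈ P.map M.φ ↔ M.φ d ∈ P.rotate 1 := by rw [hrot]
  rw [List.mem_rotate, List.mem_map_of_injective M.φ.injective] at h1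
  exact h1.symm

theorem CY_trans {K : ℕ} {x y z : V} (h : CY X a K x y) (h' : CY X a K y z) : CY X a K x z := by
  obtain ⟨l, hl, hlK⟩ := h
  obtain ⟨m, hm, hmK⟩ := h'
  obtain ⟨c1, f1, e1⟩ := hl
  obtain ⟨c2, f2, e2⟩ := hm
  cases m with
  | nil => simp at f2
  | cons w m =>
    simp only [List.head?_cons, Option.some.injEq] at f2
    subst f2
    refine ⟨l ++ m, ⟨?_, ?_, ?_⟩, ?_⟩
    · rw [List.isChain_append]
      refine ⟨c1, ?_, ?_⟩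
      · exact (List.isChain_cons.1 c2).2
      · intro u hu v hv
        rw [e1] at hu
        simp only [Option.mem_def, Option.some.injEq] at hu
        subst hu
        exact (List.isChain_cons.1 c2).1 v hv
    · cases l with
      | nil => simp at f1
      | cons u l => simpa using f1
    · cases m with
      | nil => simp only [List.append_nil]; rw [e1]; simpa using e2
      | cons u m =>
        rw [List.getLast?_append_of_ne_nil _ (by simp)]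
        simpa using e2
    · intro u hu
      rw [List.mem_append] at hu
      rcases hu with hu | hu
      · exact hlK u hu
      · exact hmK u (by simp [hu])

theorem tri3 (𝒜 : MA X a C) {d : 𝒜.D} (hd : d ∉ annB 𝒜.P 𝒜.Q) :
    𝒜.M.φ (𝒜.M.φ (𝒜.M.φ d)) = d := (𝒜.ok.ann.off.2 d hd).1.1

theorem nB (𝒜 : MA X a C) {d : 𝒜.D} (hd : d ∉ annB 𝒜.P 𝒜.Q) : 𝒜.M.φ d ∉ annB 𝒜.P 𝒜.Q := by
  intro h
  apply hd
  have := 𝒜.ok.ann.off.1 _ (𝒜.ok.ann.off.1 _ h)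
  rwa [tri3 𝒜 hd] at this

theorem trT (𝒜 : MA X a C) {d : 𝒜.D} (hd : d ∉ annB 𝒜.P 𝒜.Q) :
    Tr (𝒜.ℓ d) (𝒜.ℓ (𝒜.M.φ d)) (𝒜.ℓ (𝒜.M.φ (𝒜.M.φ d))) := by
  have h := 𝒜.ok.lenok
  have h1 := h.2.2 d hd
  have h2 := h.2.2 _ (nB 𝒜 hd)
  have h3 := h.2.2 _ (nB 𝒜 (nB 𝒜 hd))
  rw [tri3 𝒜 hd] at h2 h3
  exact ⟨h.1 _, h.1 _, h.1 _, by linarith, by linarith, by linarith⟩

/-- the sum of the outer sides is at most the length of the loop -/
theorem len_ineq (hFanG : FanGStatement) (hApexG : ApexGStatement) (hAng : AngStatement)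
    (𝒜 : MA X a C) (o : 𝒜.D) (k : ℕ) (s : ℕ → 𝒜.D) (hf : 𝒜.Fan o k s) (ho : 𝒜.M.φ o = o)
    (hk : 3 ≤ k)
    (ht : ∀ j, 2 ≤ j → j + 2 ≤ k →
      Real.pi ≤ 𝒜.M.th 𝒜.ℓ (𝒜.M.ι (s j)) + 𝒜.M.th 𝒜.ℓ (𝒜.M.φ (s j)))
    (ht3 : Real.pi ≤ 𝒜.M.th 𝒜.ℓ (𝒜.M.ι (s (k - 1))) + 𝒜.M.th 𝒜.ℓ (𝒜.M.ι (s 1)) +
      𝒜.M.th 𝒜.ℓ (𝒜.M.φ (s 1))) :
    ∑ j ∈ Finset.range (k - 2), 𝒜.ℓ (𝒜.M.φ (s (j + 1))) ≤ 𝒜.ℓ o := by
  have hℓι : ∀ d, 𝒜.ℓ (𝒜.M.ι d) = 𝒜.ℓ d := 𝒜.ok.lenok.2.1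
  have hs0 : s 0 = 𝒜.M.ι o := by
    have h := hf.zero
    have h1 : 𝒜.M.ι (s 0) = o := 𝒜.M.φ.injective (by rw [h, ho])
    rw [← h1, 𝒜.M.ιι]
  have hnx : ∀ j, j < k → 𝒜.M.φ (𝒜.M.φ (s j)) = 𝒜.M.ι (s (j + 1)) := by
    intro j hj
    rw [hf.next j hj, 𝒜.M.ιι]
  have hr : ∀ j, j < k → 𝒜.ℓ (𝒜.M.φ (𝒜.M.φ (s j))) = 𝒜.ℓ (s (j + 1)) := by
    intro j hj
    rw [hnx j hj, hℓι]
  have hφι : ∀ j, j < k → 𝒜.M.φ (𝒜.M.ι (s (j + 1))) = s j := by
    intro j hj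
    rw [← hnx j hj, tri3 𝒜 (hf.tri j hj)]
  -- angles
  have hth1 : ∀ j, j < k → 𝒜.M.th 𝒜.ℓ (𝒜.M.ι (s (j + 1))) =
      ang (𝒜.ℓ (s (j + 1))) (𝒜.ℓ (𝒜.M.φ (s j))) (𝒜.ℓ (s j)) := by
    intro j hj
    rw [DMap.th, hφι j hj, hℓι]
  have hth2 : ∀ j, j < k → 𝒜.M.th 𝒜.ℓ (𝒜.M.φ (s j)) =
      ang (𝒜.ℓ (𝒜.M.φ (s j))) (𝒜.ℓ (s j)) (𝒜.ℓ (s (j + 1))) := by
    intro j hj
    rw [DMap.th, tri3 𝒜 (hf.tri j hj), hr j hj]
  have hTr : ∀ j, j < k → Tr (𝒜.ℓ (s j)) (𝒜.ℓ (𝒜.M.φ (s j))) (𝒜.ℓ (s (j + 1))) := by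
    intro j hj
    have h := trT 𝒜 (hf.tri j hj)
    rwa [hr j hj] at h
  obtain ⟨m, rfl⟩ : ∃ m, k = m + 3 := ⟨k - 3, by omega⟩
  have hm : m + 3 - 2 = m + 1 := by omega
  have hm1 : m + 3 - 1 = m + 2 := by omega
  rw [hm]
  rw [hm1] at ht3
  have hF := hFanG (m + 1) (fun j => 𝒜.ℓ (s (j + 1))) (fun j => 𝒜.ℓ (𝒜.M.φ (s (j + 1))))
    (by omega) (fun j hj => hTr (j + 1) (by omega)) (by
      intro j hj
      have h := ht (j + 2) (by omega) (by omega)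
      rw [hth1 (j + 1) (by omega), hth2 (j + 2) (by omega)] at h
      exact h)
  refine hF.trans ?_
  simp only [Nat.add_sub_cancel, zero_add]
  -- the triangle of `ι o`
  have hlast : 𝒜.M.φ (𝒜.M.ι o) = s (m + 2) := by
    have h := hφι (m + 2) (by omega)
    have hl := hf.last
    rw [show m + 2 + 1 = m + 3 from rfl, hl] at h
    exact h
  have h01 : 𝒜.M.φ (𝒜.M.ι (s 1)) = 𝒜.M.ι o := by
    have h := hφι 0 (by omega)
    rw [zero_add, hs0] at h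
    exact h
  have hth3 : 𝒜.M.th 𝒜.ℓ (𝒜.M.ι (s 1)) = ang (𝒜.ℓ (s 1)) (𝒜.ℓ (s (m + 2))) (𝒜.ℓ o) := by
    rw [DMap.th, h01, hlast, hℓι, hℓι]
  have hT0 : Tr (𝒜.ℓ (s 1)) (𝒜.ℓ (s (m + 2))) (𝒜.ℓ o) := by
    have h := hTr 0 (by omega)
    rw [hs0, hlast, hℓι] at h
    exact ⟨h.pz, h.py, h.px, by linarith [h.hz], by linarith [h.hy], by linarith [h.hx]⟩
  have hA3 := hth2 1 (by omega)
  have hA1 := hth1 (m + 1) (by omega)
  have hT1 := hTr 1 (by omega)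
  have hT2 := hTr (m + 1) (by omega)
  have g1 := hAng _ _ _ hT1.py hT1.px hT1.pz hT1.hy hT1.hx (by linarith [hT1.hz])
  have g2 := hAng _ _ _ hT2.pz hT2.py hT2.px (by linarith [hT2.hz]) (by linarith [hT2.hy])
    (by linarith [hT2.hx])
  rw [hth3, hA3, hA1] at ht3
  exact hApexG _ _ _ _ _ hT0 g1.1 g1.2.1 g2.1 g2.2.1 (by linarith)

theorem curv_eq {D D' : Type} [Fintype D] [Fintype D'] (M : DMap D) (M' : DMap D') (ℓ : D → ℝ)
    (ℓ' : D' → ℝ) (B : Set D) (B' : Set D') (j : D' → D) (hj : Function.Injective j) (d₀ : D')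
    (hr : ∀ d, M.SameV (j d₀) d → ∃ x, j x = d)
    (hs : ∀ x, M'.SameV d₀ x ↔ M.SameV (j d₀) (j x))
    (hw : ∀ x, M'.SameV d₀ x → M'.wt ℓ' B' x = M.wt ℓ B (j x)) :
    M'.curv ℓ' B' d₀ = M.curv ℓ B (j d₀) := by
  unfold DMap.curv
  congr 1
  refine Fintype.sum_of_injective j hj _ _ ?_ ?_
  · intro d hd
    rw [if_neg]
    intro h
    obtain ⟨x, hx⟩ := hr d h
    exact hd ⟨x, hx⟩
  · intro x
    by_cases h : M'.SameV d₀ x
    · rw [if_pos h, if_pos ((hs x).1 h), hw x h]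
    · rw [if_neg h, if_neg (fun h' => h ((hs x).2 h'))]

theorem curv_fan {D : Type} [Fintype D] (M : DMap D) (ℓ : D → ℝ) (B : Set D) (o : D) (k : ℕ)
    (s : ℕ → D) (cls : ∀ d, M.SameV o d ↔ ∃ j, j ≤ k ∧ s j = d)
    (inj : ∀ j j', j ≤ k → j' ≤ k → s j = s j' → j = j') (hB : ∀ j, j < k → s j ∉ B)
    (hk : s k ∈ B) : M.curv ℓ B o = Real.pi - ∑ j ∈ Finset.range k, M.th ℓ (s j) := by
  have h1 : (∑ d : D, if M.SameV o d then M.wt ℓ B d else 0) =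
      ∑ j ∈ Finset.range (k + 1), M.wt ℓ B (s j) := by
    rw [← Finset.sum_filter]
    symm
    refine Finset.sum_bij (fun j _ => s j) ?_ ?_ ?_ ?_
    · intro j hj
      rw [Finset.mem_range] at hj
      rw [Finset.mem_filter]
      exact ⟨Finset.mem_univ _, (cls _).2 ⟨j, by omega, rfl⟩⟩
    · intro j hj j' hj' h
      rw [Finset.mem_range] at hj hj'
      exact inj j j' (by omega) (by omega) h
    · intro d hd
      rw [Finset.mem_filter] at hd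
      obtain ⟨j, hj, hjd⟩ := (cls d).1 hd.2
      exact ⟨j, by rw [Finset.mem_range]; omega, hjd⟩
    · intro j _
      rfl
  unfold DMap.curv
  rw [h1, Finset.sum_range_succ]
  have h2 : M.wt ℓ B (s k) = Real.pi := if_pos hk
  have h3 : ∑ j ∈ Finset.range k, M.wt ℓ B (s j) = ∑ j ∈ Finset.range k, M.th ℓ (s j) := by
    refine Finset.sum_congr rfl ?_
    intro j hj
    exact if_neg (hB j (Finset.mem_range.1 hj))
  rw [h2, h3]
  ring

/-- the annulus with the triangle of `ι o` absorbed -/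
theorem absorb (hAbs : AbsStatement) (𝒜 : MA X a C) (o : 𝒜.D) (k : ℕ) (s : ℕ → 𝒜.D)
    (hmk : 𝒜.Marked o) (hf : 𝒜.Fan o k s) (ho : 𝒜.M.φ o = o) (hk : 3 ≤ k)
    (hloop : ∀ j, 0 < j → j < k → ¬ 𝒜.M.SameV o (𝒜.M.ι (s j))) :
    ∃ (𝒜' : MA X a C) (j : 𝒜'.D → 𝒜.D) (x1 x2 : 𝒜'.D), Function.Injective j ∧
      (∀ x, (∃ x', j x' = x) ↔ (x ≠ o ∧ x ≠ 𝒜.M.ι o)) ∧
      (∀ x, x ≠ x1 → j (𝒜'.M.φ x) = 𝒜.M.φ (j x)) ∧ 𝒜'.M.φ x1 = x2 ∧ 𝒜'.M.φ x2 = x1 ∧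
      j x1 = 𝒜.M.ι (s 1) ∧ j x2 = s (k - 1) ∧
      (∀ x, j (𝒜'.M.ι x) = 𝒜.M.ι (j x)) ∧
      (∀ x, 𝒜'.M.f x = 𝒜.M.f (j x)) ∧ (∀ x, 𝒜'.ℓ x = 𝒜.ℓ (j x)) ∧
      (∀ x y, 𝒜'.M.SameV x y ↔ 𝒜.M.SameV (j x) (j y)) ∧
      𝒜'.P = [x1, x2] ∧ 𝒜'.Q.map j = 𝒜.Q := by
  have hs0 : s 0 = 𝒜.M.ι o := by
    have h := hf.zero
    have h1 : 𝒜.M.ι (s 0) = o := 𝒜.M.φ.injective (by rw [h, ho])
    rw [← h1, 𝒜.M.ιι]
  have hsk : s k = o := hf.last
  have hB0 : 𝒜.M.ι o ∉ annB 𝒜.P 𝒜.Q := by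
    have h := hf.tri 0 (by omega)
    rwa [hs0] at h
  have hT0 := 𝒜.ok.ann.off.2 _ hB0
  have e2 : 𝒜.M.φ (𝒜.M.φ (𝒜.M.ι o)) = 𝒜.M.ι (s 1) := by
    have h := hf.next 0 (by omega)
    rw [zero_add, hs0] at h
    rw [h, 𝒜.M.ιι]
  have e3 : 𝒜.M.φ (𝒜.M.ι (s 1)) = 𝒜.M.ι o := by rw [← e2, tri3 𝒜 hB0]
  have e1 : 𝒜.M.φ (𝒜.M.ι o) = s (k - 1) := by
    have h := hf.next (k - 1) (by omega)
    rw [show k - 1 + 1 = k by omega, hsk] at h
    have h' : 𝒜.M.ι o = 𝒜.M.φ (𝒜.M.φ (s (k - 1))) := by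
      conv_lhs => rw [h]
      rw [𝒜.M.ιι]
    rw [h', tri3 𝒜 (hf.tri (k - 1) (by omega))]
  have n1 : o ≠ 𝒜.M.φ (𝒜.M.ι o) := by
    rw [e1, ← hsk]
    intro h
    have := hf.inj k (k - 1) le_rfl (by omega) h
    omega
  have n2 : o ≠ 𝒜.M.φ (𝒜.M.φ (𝒜.M.ι o)) := by
    rw [e2]
    intro h
    refine hloop 1 (by omega) (by omega) ?_
    rw [← h]
    exact 𝒜.M.sameV_refl o
  have hPo : 𝒜.P = [o] := face_single 𝒜.ok.ann.faceP hmk.1 ho
  have hoQ : o ∉ 𝒜.Q := 𝒜.ok.ann.disj o hmk.1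
  have hιQ : 𝒜.M.ι o ∉ 𝒜.Q := fun h => hB0 (Or.inr h)
  obtain ⟨D', fin', M', j, jinj, jran, jφ, jι, jf, jγ, jh, jS, jpl⟩ :=
    hAbs V 𝒜.D a 𝒜.M o hT0 n1 n2
  obtain ⟨x1, hx1⟩ : ∃ x, j x = 𝒜.M.ι (s 1) := by
    rw [jran]
    refine ⟨by rw [← e2]; exact n2.symm, ?_⟩
    intro h
    have h1 := 𝒜.M.ι.injective h
    rw [← hsk] at h1
    have := hf.inj 1 k (by omega) le_rfl h1
    omega
  obtain ⟨x2, hx2⟩ : ∃ x, j x = s (k - 1) := by
    rw [jran]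
    refine ⟨by rw [← e1]; exact n1.symm, ?_⟩
    intro h
    rw [← hs0] at h
    have := hf.inj (k - 1) 0 (by omega) (by omega) h
    omega
  have jo : ∀ x, j x ≠ o := fun x => ((jran (j x)).1 ⟨x, rfl⟩).1
  have jιo : ∀ x, j x ≠ 𝒜.M.ι o := fun x => ((jran (j x)).1 ⟨x, rfl⟩).2
  have hφo : ∀ x, 𝒜.M.φ (j x) ≠ o := by
    intro x h
    exact jo x (𝒜.M.φ.injective (by rw [h, ho]))
  have hφι : ∀ x, x ≠ x1 → 𝒜.M.φ (j x) ≠ 𝒜.M.ι o := by
    intro x hx h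
    exact hx (jinj (by rw [hx1]; exact 𝒜.M.φ.injective (by rw [h, e3])))
  have jφ' : ∀ x, x ≠ x1 → j (M'.φ x) = 𝒜.M.φ (j x) := by
    intro x hx
    rw [jφ, if_neg (hφo x), if_neg (hφι x hx)]
  have jφ1 : M'.φ x1 = x2 := by
    apply jinj
    rw [jφ, hx1, e3, if_neg (𝒜.M.ne o), if_pos rfl, if_pos ho, e1, hx2]
  have hx12 : x1 ≠ x2 := by
    intro h
    have h1 : 𝒜.M.ι (s 1) = s (k - 1) := by rw [← hx1, ← hx2, h]
    exact hloop 1 (by omega) (by omega) (by rw [h1]; exact (hf.cls _).2 ⟨k - 1, by omega, rfl⟩)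
  have jφ2 : M'.φ x2 = x1 := by
    apply jinj
    rw [jφ' x2 (Ne.symm hx12), hx2, ← e1, e2, hx1]
  have jh' : ∀ x, x ≠ x1 → M'.h x = 𝒜.M.h (j x) := by
    intro x hx
    rw [jh, if_neg (hφo x), if_neg (hφι x hx)]
  have jh1 : M'.h x1 = 𝒜.M.h (𝒜.M.ι (s 1)) + 𝒜.M.h o + 𝒜.M.h (𝒜.M.ι o) := by
    rw [jh, hx1, e3, if_neg (𝒜.M.ne o), if_pos rfl, if_pos ho]
  obtain ⟨Q', hQ'⟩ : ∃ Q' : List D', Q'.map j = 𝒜.Q := by
    have h : 𝒜.Q ∈ Set.range (List.map j) := by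
      rw [Set.range_list_map]
      intro x hx
      obtain ⟨x', h'⟩ := (jran x).2 ⟨fun h => hoQ (h ▸ hx), fun h => hιQ (h ▸ hx)⟩
      exact ⟨x', h'⟩
    exact h
  have memQ : ∀ x, x ∈ Q' ↔ j x ∈ 𝒜.Q := by
    intro x
    rw [← hQ', List.mem_map_of_injective jinj]
  have hx1Q : x1 ∉ Q' := by
    rw [memQ, hx1, ← e2]
    exact fun h => nB 𝒜 (nB 𝒜 hB0) (Or.inr h)
  have hx2Q : x2 ∉ Q' := by
    rw [memQ, hx2]
    exact fun h => hf.tri (k - 1) (by omega) (Or.inr h)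
  -- darts outside of the big faces
  have hB : ∀ x, x ∉ annB [x1, x2] Q' → x ≠ x1 ∧ x ≠ x2 ∧ j x ∉ annB 𝒜.P 𝒜.Q := by
    intro x hx
    have h1 : x ≠ x1 := fun h => hx (Or.inl (by simp [h]))
    have h2 : x ≠ x2 := fun h => hx (Or.inl (by simp [h]))
    refine ⟨h1, h2, ?_⟩
    rintro (h | h)
    · rw [hPo] at h
      exact jo x (by simpa using h)
    · exact hx (Or.inr ((memQ x).2 h))
  have hφn : ∀ x, x ∉ annB [x1, x2] Q' → M'.φ x ≠ x1 := by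
    intro x hx h
    have := (hB x hx).2.1
    exact this (M'.φ.injective (by rw [h, jφ2]))
  have hφn2 : ∀ x, x ∉ annB [x1, x2] Q' → M'.φ (M'.φ x) ≠ x1 := by
    intro x hx h
    have h1 : M'.φ x = x2 := M'.φ.injective (by rw [h, jφ2])
    exact (hB x hx).1 (M'.φ.injective (by rw [h1, jφ1]))
  have hj2 : ∀ x, x ∉ annB [x1, x2] Q' → j (M'.φ (M'.φ x)) = 𝒜.M.φ (𝒜.M.φ (j x)) := by
    intro x hx
    rw [jφ' _ (hφn x hx), jφ' x (hB x hx).1]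
  have hj3 : ∀ x, x ∉ annB [x1, x2] Q' →
      M'.φ (M'.φ (M'.φ x)) = x := by
    intro x hx
    apply jinj
    rw [jφ' _ (hφn2 x hx), hj2 x hx, tri3 𝒜 (hB x hx).2.2]
  have hth : ∀ x, x ∉ annB [x1, x2] Q' →
      M'.th (fun x => 𝒜.ℓ (j x)) x = 𝒜.M.th 𝒜.ℓ (j x) := by
    intro x hx
    simp only [DMap.th]
    rw [hj2 x hx, jφ' x (hB x hx).1]
  have hann : IsAnn M' [x1, x2] Q' 𝒜.ε := by
    refine ⟨jpl 𝒜.ok.ann.planar, ⟨by simp, by simp [hx12], ?_⟩, ⟨?_, ?_, ?_⟩, ?_, ⟨?_, ?_⟩, ?_, ?_,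
      𝒜.ok.ann.eps⟩
    · simp [jφ1, jφ2]
    · intro h
      rw [h] at hQ'
      exact 𝒜.ok.ann.faceQ.1 hQ'.symm
    · have h := 𝒜.ok.ann.faceQ.2.1
      rw [← hQ'] at h
      exact h.of_map _
    · have h := 𝒜.ok.ann.faceQ.2.2
      rw [← hQ', ← List.map_rotate, List.map_map] at h
      apply List.map_injective_iff.2 jinj
      rw [← h, List.map_map]
      apply List.map_congr_left
      intro x hx
      have : x ≠ x1 := fun h' => hx1Q (h' ▸ hx)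
      simp only [Function.comp_apply]
      rw [jφ' x this]
    · intro d hd
      simp only [List.mem_cons, List.not_mem_nil, or_false] at hd
      rcases hd with rfl | rfl
      · exact hx1Q
      · exact hx2Q
    · intro d hd
      rcases hd with hd | hd
      · simp only [List.mem_cons, List.not_mem_nil, or_false] at hd
        rcases hd with rfl | rfl
        · rw [jφ1]; exact Or.inl (by simp)
        · rw [jφ2]; exact Or.inl (by simp)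
      · refine Or.inr ?_
        have hd1 : d ≠ x1 := fun h' => hx1Q (h' ▸ hd)
        rw [memQ, jφ' d hd1, face_mem 𝒜.ok.ann.faceQ]
        exact (memQ d).1 hd
    · intro d hd
      have hT := 𝒜.ok.ann.off.2 _ (hB d hd).2.2
      refine ⟨⟨hj3 d hd, ?_⟩, ?_⟩
      · intro h
        apply hT.1.2
        rw [← jφ' d (hB d hd).1, h]
      · rw [jh' d (hB d hd).1, jh' _ (hφn d hd), jh' _ (hφn2 d hd), hj2 d hd,
          jφ' d (hB d hd).1]
        exact hT.2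
    · have h := 𝒜.ok.ann.holP
      rw [hPo] at h
      have h2 := hT0.2
      rw [e2] at h2
      simp only [LMap.hol, List.map_cons, List.map_nil, List.sum_cons, List.sum_nil] at h ⊢
      rw [jh1, jh' x2 (Ne.symm hx12), hx2, ← e1]
      linarith
    · have h := 𝒜.ok.ann.holQ
      rw [← h, ← hQ', LMap.hol, LMap.hol, List.map_map]
      congr 1
      apply List.map_congr_left
      intro x hx
      have : x ≠ x1 := fun h' => hx1Q (h' ▸ hx)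
      simp only [Function.comp_apply]
      rw [jh' x this]
  refine ⟨⟨D', fin', M', [x1, x2], Q', 𝒜.ε, fun x => 𝒜.ℓ (j x), fun x => 𝒜.e (j x),
    ⟨hann, ⟨?_, ?_, ?_⟩, ?_, ?_, ?_, ?_, ?_⟩⟩, j, x1, x2, jinj, jran, jφ', jφ1, jφ2, hx1, hx2, jι,
    jf, fun _ => rfl, jS, rfl, hQ'⟩
  · intro d
    exact 𝒜.ok.lenok.1 _
  · intro d
    show 𝒜.ℓ (j (M'.ι d)) = 𝒜.ℓ (j d)
    rw [jι]
    exact 𝒜.ok.lenok.2.1 _
  · intro d hd
    show 𝒜.ℓ (j (M'.φ d)) < 𝒜.ℓ (j d) + 𝒜.ℓ (j (M'.φ (M'.φ d)))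
    rw [hj2 d hd, jφ' d (hB d hd).1]
    exact 𝒜.ok.lenok.2.2 _ (hB d hd).2.2
  · intro d
    show 𝒜.e (j d) 0 = kap X (M'.f d)
    rw [jf]
    exact 𝒜.ok.e0 _
  · intro d t h0 h1
    show sh a (M'.γ d) (𝒜.e (j (M'.ι d)) t) = 𝒜.e (j d) (𝒜.ℓ (j d) - t)
    rw [jγ, jι]
    exact 𝒜.ok.eι _ t h0 h1
  · intro d
    exact 𝒜.ok.elip (j d)
  · intro d hd
    show Fil X C (𝒜.ℓ (j d)) (𝒜.ℓ (j (M'.φ d))) (𝒜.ℓ (j (M'.φ (M'.φ d)))) (𝒜.e (j d))
      (fun t => sh a (M'.h d) (𝒜.e (j (M'.φ d)) t))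
      (fun t => sh a (M'.h d + M'.h (M'.φ d)) (𝒜.e (j (M'.φ (M'.φ d))) t))
    rw [hj2 d hd, jh' d (hB d hd).1, jh' _ (hφn d hd), jφ' d (hB d hd).1]
    exact 𝒜.ok.fil _ (hB d hd).2.2
  · intro d hd
    have hno : ¬ 𝒜.M.SameV (j d) o := by
      intro h
      refine hd x2 ?_ (Or.inl (by simp))
      rw [jS, hx2]
      exact 𝒜.M.sameV_trans h ((hf.cls _).2 ⟨k - 1, by omega, rfl⟩)
    have hnι : ¬ 𝒜.M.SameV (j d) (𝒜.M.ι o) := by
      intro h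
      refine hno (𝒜.M.sameV_trans h (𝒜.M.sameV_symm ?_))
      rw [← hs0]
      exact (hf.cls _).2 ⟨0, by omega, rfl⟩
    have hnB : ∀ b, 𝒜.M.SameV (j d) b → b ∉ annB 𝒜.P 𝒜.Q := by
      rintro b hb (h | h)
      · rw [hPo] at h
        simp only [List.mem_cons, List.not_mem_nil, or_false] at h
        exact hno (h ▸ hb)
      · obtain ⟨b', hb'⟩ := (jran b).2 ⟨fun h' => hno (h' ▸ hb), fun h' => hnι (h' ▸ hb)⟩
        refine hd b' ((jS _ _).2 (by rw [hb']; exact hb)) (Or.inr ((memQ b').2 ?_))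
        rw [hb']
        exact h
    have hc := 𝒜.ok.npc (j d) hnB
    rw [← curv_eq 𝒜.M.toDMap M'.toDMap 𝒜.ℓ (fun x => 𝒜.ℓ (j x)) (annB 𝒜.P 𝒜.Q)
      (annB [x1, x2] Q') j jinj d ?_ (fun x => jS d x) ?_] at hc
    · exact hc
    · intro b hb
      exact (jran b).2 ⟨fun h' => hno (h' ▸ hb), fun h' => hnι (h' ▸ hb)⟩
    · intro x hx
      rw [DMap.wt, DMap.wt, if_neg (hd x hx), if_neg (hnB _ ((jS _ _).1 hx)), hth x (hd x hx)]

/-- the fan at `s (k - 1)` in the new annulus -/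
theorem fan_absorb (𝒜 𝒜' : MA X a C) (o : 𝒜.D) (k : ℕ) (s : ℕ → 𝒜.D) (j : 𝒜'.D → 𝒜.D)
    (x1 x2 : 𝒜'.D) (hmk : 𝒜.Marked o) (hf : 𝒜.Fan o k s) (ho : 𝒜.M.φ o = o) (hk : 3 ≤ k)
    (hloop : ∀ j, 0 < j → j < k → ¬ 𝒜.M.SameV o (𝒜.M.ι (s j)))
    (jinj : Function.Injective j)
    (jran : ∀ x, (∃ x', j x' = x) ↔ (x ≠ o ∧ x ≠ 𝒜.M.ι o))
    (jφ : ∀ x, x ≠ x1 → j (𝒜'.M.φ x) = 𝒜.M.φ (j x)) (jφ1 : 𝒜'.M.φ x1 = x2)
    (hx1 : j x1 = 𝒜.M.ι (s 1)) (hx2 : j x2 = s (k - 1))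
    (jι : ∀ x, j (𝒜'.M.ι x) = 𝒜.M.ι (j x))
    (jS : ∀ x y, 𝒜'.M.SameV x y ↔ 𝒜.M.SameV (j x) (j y)) (hP : 𝒜'.P = [x1, x2])
    (hQ : 𝒜'.Q.map j = 𝒜.Q) :
    ∃ s' : ℕ → 𝒜'.D, 𝒜'.Fan x2 (k - 2) s' ∧ ∀ i, i ≤ k - 2 → j (s' i) = s (i + 1) := by
  have hs0 : s 0 = 𝒜.M.ι o := by
    have h := hf.zero
    have h1 : 𝒜.M.ι (s 0) = o := 𝒜.M.φ.injective (by rw [h, ho])
    rw [← h1, 𝒜.M.ιι]
  have hsk : s k = o := hf.last
  have hPo : 𝒜.P = [o] := face_single 𝒜.ok.ann.faceP hmk.1 ho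
  have hex : ∀ i, ∃ x, i ≤ k - 2 → j x = s (i + 1) := by
    intro i
    by_cases hi : i ≤ k - 2
    · have g1 : s (i + 1) ≠ o := by
        intro h
        rw [← hsk] at h
        have := hf.inj (i + 1) k (by omega) le_rfl h
        omega
      have g2 : s (i + 1) ≠ 𝒜.M.ι o := by
        intro h
        rw [← hs0] at h
        have := hf.inj (i + 1) 0 (by omega) (by omega) h
        omega
      obtain ⟨x, hx⟩ := (jran (s (i + 1))).2 ⟨g1, g2⟩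
      exact ⟨x, fun _ => hx⟩
    · exact ⟨x1, fun h => absurd h hi⟩
  choose s' hs' using hex
  have hnx1 : ∀ i, i ≤ k - 2 → s' i ≠ x1 := by
    intro i hi h
    have h1 := hs' i hi
    rw [h, hx1] at h1
    exact hloop 1 (by omega) (by omega) (by rw [h1]; exact (hf.cls _).2 ⟨i + 1, by omega, rfl⟩)
  have hlast : s' (k - 2) = x2 := by
    apply jinj
    rw [hs' _ le_rfl, hx2, show k - 2 + 1 = k - 1 by omega]
  have hinj : ∀ i i', i ≤ k - 2 → i' ≤ k - 2 → s' i = s' i' → i = i' := by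
    intro i i' hi hi' h
    have h1 := hs' i hi
    rw [h, hs' i' hi'] at h1
    have := hf.inj (i' + 1) (i + 1) (by omega) (by omega) h1
    omega
  have htri : ∀ i, i < k - 2 → s' i ∉ annB 𝒜'.P 𝒜'.Q := by
    rintro i hi (h | h)
    · rw [hP] at h
      simp only [List.mem_cons, List.not_mem_nil, or_false] at h
      rcases h with h | h
      · exact hnx1 i (by omega) h
      · rw [← hlast] at h
        have := hinj i (k - 2) (by omega) le_rfl h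
        omega
    · refine hf.tri (i + 1) (by omega) (Or.inr ?_)
      rw [← hQ, ← hs' i (by omega)]
      exact List.mem_map_of_mem h
  have hcls : ∀ d, 𝒜'.M.SameV x2 d ↔ ∃ i, i ≤ k - 2 ∧ s' i = d := by
    intro d
    have hk1 : 𝒜.M.SameV o (s (k - 1)) := (hf.cls _).2 ⟨k - 1, by omega, rfl⟩
    rw [jS, hx2]
    constructor
    · intro h
      obtain ⟨i, hi, hid⟩ := (hf.cls _).1 (𝒜.M.sameV_trans hk1 h)
      have hi0 : i ≠ 0 := by
        rintro rfl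
        exact ((jran (j d)).1 ⟨d, rfl⟩).2 (by rw [← hid, hs0])
      have hik : i ≠ k := by
        rintro rfl
        exact ((jran (j d)).1 ⟨d, rfl⟩).1 (by rw [← hid, hsk])
      refine ⟨i - 1, by omega, jinj ?_⟩
      rw [hs' _ (by omega), ← hid]
      congr 1
      omega
    · rintro ⟨i, hi, rfl⟩
      rw [hs' i hi]
      exact 𝒜.M.sameV_trans (𝒜.M.sameV_symm hk1) ((hf.cls _).2 ⟨i + 1, by omega, rfl⟩)
  refine ⟨s', ⟨?_, hlast, ?_, htri, hinj, hcls, ?_⟩, hs'⟩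
  · have h : 𝒜'.M.ι (s' 0) = x1 := by
      apply jinj
      rw [jι, hs' 0 (by omega), zero_add, hx1]
    rw [h, jφ1]
  · intro i hi
    apply jinj
    have h1 : 𝒜'.M.φ (s' i) ≠ x1 := by
      intro h
      have h2 := jφ (s' i) (hnx1 i (by omega))
      rw [h, hx1, hs' i (by omega)] at h2
      have h3 := hf.next (i + 1) (by omega)
      rw [← h2] at h3
      have h4 := hf.next 0 (by omega)
      rw [zero_add] at h4
      have h5 : 𝒜.M.φ (𝒜.M.ι (s 1)) = s 0 := by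
        rw [h4, 𝒜.M.ιι, tri3 𝒜 (hf.tri 0 (by omega))]
      rw [h5, hs0, 𝒜.M.ιι, ← hsk] at h3
      have := hf.inj (i + 1 + 1) k (by omega) le_rfl h3
      omega
    rw [jι, jφ _ h1, jφ _ (hnx1 i (by omega)), hs' i (by omega), hs' (i + 1) (by omega)]
    exact hf.next (i + 1) (by omega)
  · refine curv_fan 𝒜'.M.toDMap 𝒜'.ℓ _ x2 (k - 2) s' hcls hinj htri ?_
    rw [hlast, hP]
    exact Or.inl (by simp)

theorem list_sum (f : ℕ → ℝ) (n : ℕ) :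
    ((List.range n).map f).sum = ∑ i ∈ Finset.range n, f i := by
  induction n with
  | zero => simp
  | succ n ih =>
    rw [List.range_succ, List.map_append, List.sum_append, ih, Finset.sum_range_succ]
    simp

theorem loopM (hAbs : AbsStatement) (hDelM : DelMStatement) (hFanG : FanGStatement)
    (hApexG : ApexGStatement) (hLoopC : LoopCStatement) (_hPConn : PConnStatement)
    (hAng : AngStatement) : LoopMStatement := by
  intro V X a C K K' h9 𝒜 o k s hLe hmk hf ho hk hloop ht ht3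
  have hlen := len_ineq hFanG hApexG hAng 𝒜 o k s hf ho hk ht ht3
  have hPo : 𝒜.P = [o] := face_single 𝒜.ok.ann.faceP hmk.1 ho
  have hoK : 𝒜.ℓ o ≤ K := by
    have h := hLe.1
    rw [hPo] at h
    simpa using h
  have hs0 : s 0 = 𝒜.M.ι o := by
    have h := hf.zero
    have h1 : 𝒜.M.ι (s 0) = o := 𝒜.M.φ.injective (by rw [h, ho])
    rw [← h1, 𝒜.M.ιι]
  have hC := hLoopC V X a C K K' h9 𝒜 o k s hLe hmk hf ho hk (hlen.trans hoK) 0
  obtain ⟨𝒜', j, x1, x2, jinj, jran, jφ, jφ1, jφ2, hx1, hx2, jι, jf, jℓ, jS, hP', hQ'⟩ :=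
    absorb hAbs 𝒜 o k s hmk hf ho hk hloop
  obtain ⟨s', hf', hs'⟩ := fan_absorb 𝒜 𝒜' o k s j x1 x2 hmk hf ho hk hloop jinj jran jφ jφ1 hx1
    hx2 jι jS hP' hQ'
  have hk1 : 𝒜.M.SameV o (s (k - 1)) := (hf.cls _).2 ⟨k - 1, by omega, rfl⟩
  have hx12 : x1 ≠ x2 := by
    intro h
    have h1 : 𝒜.M.ι (s 1) = s (k - 1) := by rw [← hx1, ← hx2, h]
    exact hloop 1 (by omega) (by omega) (by rw [h1]; exact hk1)
  have hnx1 : ∀ i, i ≤ k - 2 → s' i ≠ x1 := by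
    intro i hi h
    have h1 := hs' i hi
    rw [h, hx1] at h1
    exact hloop 1 (by omega) (by omega) (by rw [h1]; exact (hf.cls _).2 ⟨i + 1, by omega, rfl⟩)
  obtain ⟨𝒜'', q, rest, qinj, qran, qP, qrot, qQ, qε, qcard, qφ, qι, qS⟩ :=
    hDelM V X a C h9.aut 𝒜' x2 (k - 2) s' (by rw [hP']; simp) (by
      rintro b (hb | hb) hs
      · rw [hP'] at hb
        simp only [List.mem_cons, List.not_mem_nil, or_false] at hb
        rcases hb with rfl | rfl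
        · exfalso
          rw [jS, hx1, hx2] at hs
          exact hloop 1 (by omega) (by omega) (𝒜.M.sameV_trans hk1 hs)
        · rfl
      · exfalso
        rw [jS, hx2] at hs
        have hbQ : j b ∈ 𝒜.Q := by
          rw [← hQ']
          exact List.mem_map_of_mem hb
        have h1 := hmk.2.1 (j b) (Or.inr hbQ) (𝒜.M.sameV_trans hk1 hs)
        exact ((jran (j b)).1 ⟨b, rfl⟩).1 h1) hf' (by rw [jφ2]; exact hx12) (by omega) (by
      intro i hi0 hi hs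
      rw [jS, hx2, jι, hs' i (by omega)] at hs
      exact hloop (i + 1) (by omega) (by omega) (𝒜.M.sameV_trans hk1 hs))
  have hrest : rest = [] := by
    have h := qrot.perm.length_eq
    rw [hP'] at h
    simp only [List.length_cons, List.length_nil] at h
    exact List.length_eq_zero_iff.1 (by omega)
  rw [hrest, List.append_nil] at qP
  -- lengths
  have hsumP : (𝒜''.P.map 𝒜''.ℓ).sum = ∑ i ∈ Finset.range (k - 2), 𝒜.ℓ (𝒜.M.φ (s (i + 1))) := by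
    have h1 : 𝒜''.P.map 𝒜''.ℓ = (𝒜''.P.map q).map 𝒜'.ℓ := by
      rw [List.map_map]
      exact List.map_congr_left (fun x _ => (qι x).2.2.2.1)
    rw [h1, qP, List.map_map, list_sum]
    refine Finset.sum_congr rfl ?_
    intro i hi
    rw [Finset.mem_range] at hi
    simp only [Function.comp_apply]
    rw [jℓ, jφ _ (hnx1 i (by omega)), hs' i (by omega)]
  have hsumQ : 𝒜''.Q.map 𝒜''.ℓ = 𝒜.Q.map 𝒜.ℓ := by
    rw [← hQ', ← qQ, List.map_map, List.map_map]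
    refine List.map_congr_left (fun x _ => ?_)
    simp only [Function.comp_apply]
    rw [(qι x).2.2.2.1, jℓ]
  have hlenP : 𝒜''.P.length = k - 2 := by
    have h := congrArg List.length qP
    simpa using h
  have hlenQ : 𝒜''.Q.length = 𝒜.Q.length := by
    rw [← hQ', ← qQ, List.length_map, List.length_map]
  have hcard : Fintype.card 𝒜'.D + 2 = Fintype.card 𝒜.D := by
    have h1 : Finset.univ.image j = (Finset.univ : Finset 𝒜.D) \ {o, 𝒜.M.ι o} := by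
      ext x
      simp only [Finset.mem_image, Finset.mem_univ, true_and, Finset.mem_sdiff, Finset.mem_insert,
        Finset.mem_singleton, not_or]
      exact jran x
    have h2 := congrArg Finset.card h1
    rw [Finset.card_image_of_injective _ jinj, Finset.card_univ,
      Finset.card_sdiff_of_subset (Finset.subset_univ _), Finset.card_univ,
      Finset.card_pair (𝒜.M.ne o).symm] at h2
    have h3 : 2 ≤ Fintype.card 𝒜.D := by
      rw [← Finset.card_pair (𝒜.M.ne o).symm]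
      exact Finset.card_le_univ _
    omega
  have hnt : 𝒜''.nt < 𝒜.nt := by
    have hB0 : 𝒜.M.ι o ∉ annB 𝒜.P 𝒜.Q := by
      have h := hf.tri 0 (by omega)
      rwa [hs0] at h
    have hnd : (𝒜.M.ι o :: (𝒜.P ++ 𝒜.Q)).Nodup := by
      rw [List.nodup_cons, List.nodup_append]
      refine ⟨?_, 𝒜.ok.ann.faceP.2.1, 𝒜.ok.ann.faceQ.2.1, ?_⟩
      · rw [List.mem_append]
        exact hB0
      · intro x hx y hy hxy
        exact 𝒜.ok.ann.disj x hx (hxy ▸ hy)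
    have h := hnd.length_le_card
    rw [List.length_cons, List.length_append] at h
    have hl : 𝒜.P.length = 1 := by rw [hPo]; rfl
    unfold MA.nt
    rw [hlenP, hlenQ, hl]
    rw [hl] at h
    omega
  refine ⟨𝒜'', ⟨?_, ?_⟩, Or.inl hnt, ?_⟩
  · rw [hsumP]
    exact hlen.trans hoK
  · rw [hsumQ]
    exact hLe.2
  · intro hG p hp b hb
    rw [hPo] at hp
    simp only [List.mem_cons, List.not_mem_nil, or_false] at hp
    subst hp
    -- the dart `φ (s 1)` of the new face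
    have h1 : 𝒜'.M.φ (s' 0) ∈ 𝒜''.P.map q := by
      rw [qP]
      exact List.mem_map.2 ⟨0, by rw [List.mem_range]; omega, rfl⟩
    obtain ⟨y, hy, hyq⟩ := List.mem_map.1 h1
    have hfy : 𝒜''.M.f y = 𝒜.M.f (𝒜.M.φ (s 1)) := by
      rw [(qι y).2.1, hyq, jf, jφ _ (hnx1 0 (by omega)), hs' 0 (by omega)]
    rw [← hQ', ← qQ, List.map_map] at hb
    obtain ⟨z, hz, hzb⟩ := List.mem_map.1 hb
    have hfz : 𝒜''.M.f z = 𝒜.M.f b := by
      rw [(qι z).2.1, jf, ← hzb]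
      rfl
    have h2 := hG y hy z hz
    rw [hfy, hfz] at h2
    exact CY_trans hC h2

end basic

end MSG.H74
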